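import Pool.Agent.V5helper19.ER.Stm2

set_option autoImplicit false
open Finset

namespace V5helper23.ER

open V5helper19.ER

theorem card_le_two_lab {n : ℕ} (D : Finset (G n)) : D.card ≤ 2 * lab D := by
  classical
  unfold lab
  refine Finset.card_le_mul_card_image D 2 ?_
  intro A hA
  obtain ⟨d, hd, rfl⟩ := Finset.mem_image.mp hA
  refine le_trans (Finset.card_le_card (t := ({d, d⁻¹} : Finset (G n))) ?_) Finset.card_le_two
  intro x hx
  have h1 := (Finset.mem_filter.mp hx).2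
  have h2 : x ∈ ({x, x⁻¹} : Finset (G n)) := by simp
  rw [h1] at h2
  exact h2

theorem t_LB (hDC : S_DC) (hCNT : S_CNT) : S_LB := by
  intro n hn
  have hI : ∀ i k : Fin n, i ≠ k → NN n ≤ 170 * n * (DD i k).card := by
    intro i k hik
    have h := hCNT n hn i k 1 hik (by simpa using hik)
    have h2 : ((DD i k).filter fun r : G n => ∀ x, (r : Equiv.Perm (Fin n)) x ≠ ((1 : G n) : Equiv.Perm (Fin n)) x).card
      ≤ (DD i k).card := Finset.card_filter_le _ _
    have h3 : Fintype.card (G n) ≤ 170 * n * (DD i k).card := h.trans (Nat.mul_le_mul_left _ h2)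
    unfold NN
    exact_mod_cast h3
  have i0 : Fin n := ⟨0, by omega⟩
  have h01 : (⟨0, by omega⟩ : Fin n) ≠ ⟨1, by omega⟩ := by
    intro h
    simp [Fin.ext_iff] at h
  have hdc := hDC n (by omega) _ _ h01
  have hdcR : ((n : ℝ) - 1) * ((DD (⟨0, by omega⟩ : Fin n) ⟨1, by omega⟩).card : ℝ) = (Der n).card := by
    have : (((n - 1 : ℕ) : ℝ)) = (n : ℝ) - 1 := by
      rw [Nat.cast_sub (by omega)]
      simp
    rw [← this]
    exact_mod_cast hdc
  have hnR : (100 : ℝ) ≤ n := by exact_mod_cast hn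
  refine ⟨hI, ?_, ?_⟩
  · have h1 := hI _ _ h01
    rw [← hdcR]
    have h4 : (0 : ℝ) ≤ ((DD (⟨0, by omega⟩ : Fin n) ⟨1, by omega⟩).card : ℝ) := Nat.cast_nonneg _
    nlinarith
  · intro D S hB
    have h1 := card_le_two_lab D
    have h2 := hB.lab_lt _ _ h01
    have h3 : lab (DD (⟨0, by omega⟩ : Fin n) ⟨1, by omega⟩) ≤ (DD (⟨0, by omega⟩ : Fin n) ⟨1, by omega⟩).card :=
      Finset.card_image_le
    have h4 : D.card ≤ 2 * (DD (⟨0, by omega⟩ : Fin n) ⟨1, by omega⟩).card := by omega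
    have h5 : (D.card : ℝ) ≤ 2 * ((DD (⟨0, by omega⟩ : Fin n) ⟨1, by omega⟩).card : ℝ) := by exact_mod_cast h4
    rw [← hdcR]
    nlinarith

end V5helper23.ER
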