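import Pool.Agent.V5helper19.ER.Stm2

set_option autoImplicit false
open Finset

namespace V5helper23.ER

open V5helper19.ER

theorem sum_pow_four {ι : Type} (s : Finset ι) (y : ι → ℝ) :
    (∑ x ∈ s, y x) ^ 4 ≤ (s.card : ℝ) ^ 3 * ∑ x ∈ s, y x ^ 4 := by
  have h1 : (∑ x ∈ s, y x) ^ 2 ≤ s.card * ∑ x ∈ s, y x ^ 2 := sq_sum_le_card_mul_sum_sq
  have h2 : (∑ x ∈ s, y x ^ 2) ^ 2 ≤ s.card * ∑ x ∈ s, (y x ^ 2) ^ 2 := sq_sum_le_card_mul_sum_sq
  have h3 : ∀ x, (y x ^ 2) ^ 2 = y x ^ 4 := fun x => by ring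
  simp only [h3] at h2
  have h0 : (0 : ℝ) ≤ s.card := Nat.cast_nonneg _
  calc (∑ x ∈ s, y x) ^ 4 = ((∑ x ∈ s, y x) ^ 2) ^ 2 := by ring
    _ ≤ (s.card * ∑ x ∈ s, y x ^ 2) ^ 2 := pow_le_pow_left₀ (sq_nonneg _) h1 2
    _ = (s.card : ℝ) ^ 2 * (∑ x ∈ s, y x ^ 2) ^ 2 := by ring
    _ ≤ (s.card : ℝ) ^ 2 * (s.card * ∑ x ∈ s, y x ^ 4) := mul_le_mul_of_nonneg_left h2 (by positivity)
    _ = _ := by ring

theorem sum_S {n : ℕ} (S : Finset (G n)) (b : Fin n → Fin n → ℝ) :
    ∑ x ∈ S, ∑ i, b i ((x : Equiv.Perm (Fin n)) i) =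
      ∑ i, ∑ j, b i j * ((S.filter fun x : G n => (x : Equiv.Perm (Fin n)) i = j).card : ℝ) := by
  rw [Finset.sum_comm]
  refine Finset.sum_congr rfl fun i _ => ?_
  rw [← Finset.sum_fiberwise (s := S) (g := fun x : G n => (x : Equiv.Perm (Fin n)) i)]
  refine Finset.sum_congr rfl fun j _ => ?_
  rw [Finset.sum_congr rfl (g := fun _ => b i j)]
  · rw [Finset.sum_const, nsmul_eq_mul, mul_comm]
  · intro x hx
    rw [(Finset.mem_filter.mp hx).2]

theorem t_SM (hTR : S_TR) (hX4 : S_X4) : S_SM := by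
  intro n hn S η hη
  classical
  have hnpos : (0 : ℝ) < n := by
    have : 0 < n := by omega
    exact_mod_cast this
  have hNpos : (0 : ℝ) < NN n := by
    unfold NN
    exact_mod_cast Fintype.card_pos
  obtain ⟨-, -, -, -, hfac⟩ := hTR n hn
  have hfacR : (n.factorial : ℝ) = 2 * NN n := by
    unfold NN
    exact_mod_cast hfac.symm
  have hcc0 : 0 ≤ cc S := by
    unfold cc
    positivity
  have hSc : (S.card : ℝ) = cc S * NN n / n := by
    unfold cc
    field_simp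
  have haa0 : ∀ i j, 0 ≤ aa S i j := by
    intro i j
    unfold aa
    positivity
  have hfil : ∀ i j, ((S.filter fun x : G n => (x : Equiv.Perm (Fin n)) i = j).card : ℝ) = aa S i j * (NN n / n) := by
    intro i j
    unfold aa
    field_simp
  set b : Fin n → Fin n → ℝ := fun i j => if aa S i j ≤ η then ab S i j else 0 with hb
  have hbη : ∀ i j, |b i j| ≤ η := by
    intro i j
    have hc : 0 ≤ cc S / n := by positivity
    by_cases h : aa S i j ≤ η
    · simp only [hb, if_pos h]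
      unfold ab
      rw [abs_le]
      constructor
      · have := haa0 i j
        linarith
      · linarith
    · simp only [hb, if_neg h, abs_zero]
      linarith
  have hb2 : ∀ i j, b i j ^ 2 = if aa S i j ≤ η then ab S i j ^ 2 else 0 := by
    intro i j
    by_cases h : aa S i j ≤ η <;> simp [hb, h]
  have hbab : ∀ i j, b i j * ab S i j = b i j ^ 2 := by
    intro i j
    by_cases h : aa S i j ≤ η
    · simp only [hb, if_pos h]
      ring
    · simp only [hb, if_neg h]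
      ring
  have hσ : (∑ i, ∑ j, if aa S i j ≤ η then ab S i j ^ 2 else 0) = ∑ i, ∑ j, b i j ^ 2 := by
    refine Finset.sum_congr rfl fun i _ => Finset.sum_congr rfl fun j _ => ?_
    rw [hb2]
  rw [hσ]
  set σ := ∑ i, ∑ j, b i j ^ 2 with hσd
  have hσ0 : 0 ≤ σ := Finset.sum_nonneg fun i _ => Finset.sum_nonneg fun j _ => sq_nonneg _
  set m := (∑ i, ∑ j, b i j) / n with hm
  have hx4 := hX4 n hn b η hbη
  -- the sum over S
  have hsum : ∑ x ∈ S, (∑ i, b i ((x : Equiv.Perm (Fin n)) i) - m) = NN n / n * σ := by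
    rw [Finset.sum_sub_distrib, sum_S, Finset.sum_const, nsmul_eq_mul, hSc]
    have e1 : ∑ i, ∑ j, b i j * ((S.filter fun x : G n => (x : Equiv.Perm (Fin n)) i = j).card : ℝ) =
        NN n / n * ∑ i, ∑ j, b i j * aa S i j := by
      rw [Finset.mul_sum]
      refine Finset.sum_congr rfl fun i _ => ?_
      rw [Finset.mul_sum]
      refine Finset.sum_congr rfl fun j _ => ?_
      rw [hfil]
      ring
    have e2 : σ = ∑ i, ∑ j, b i j * aa S i j - cc S / n * ∑ i, ∑ j, b i j := by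
      rw [hσd, Finset.mul_sum, ← Finset.sum_sub_distrib]
      refine Finset.sum_congr rfl fun i _ => ?_
      rw [Finset.mul_sum, ← Finset.sum_sub_distrib]
      refine Finset.sum_congr rfl fun j _ => ?_
      rw [← hbab]
      unfold ab
      ring
    rw [e1, e2, hm]
    field_simp
  -- Hoelder
  have h4 := sum_pow_four S (fun x : G n => ∑ i, b i ((x : Equiv.Perm (Fin n)) i) - m)
  have h5 : ∑ x ∈ S, (∑ i, b i ((x : Equiv.Perm (Fin n)) i) - m) ^ 4 ≤
      ∑ x : Equiv.Perm (Fin n), (∑ i, b i (x i) - m) ^ 4 := by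
    have e1 : ∑ x ∈ S, (∑ i, b i ((x : Equiv.Perm (Fin n)) i) - m) ^ 4 =
        ∑ y ∈ S.map ⟨fun x : G n => (x : Equiv.Perm (Fin n)), Subtype.val_injective⟩, (∑ i, b i (y i) - m) ^ 4 := by
      rw [Finset.sum_map]
      rfl
    rw [e1]
    refine Finset.sum_le_sum_of_subset_of_nonneg (Finset.subset_univ _) ?_
    intro y _ _
    positivity
  rw [hsum] at h4
  have h6 : (NN n / n * σ) ^ 4 ≤ (cc S * NN n / n) ^ 3 *
      (2 * NN n * (72 * (η ^ 2 * σ / n + 3 * σ ^ 2 / n ^ 2))) := by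
    refine h4.trans ?_
    rw [hSc]
    refine mul_le_mul_of_nonneg_left ?_ (by positivity)
    rw [← hfacR]
    exact h5.trans hx4
  -- simplify
  have h7 : (NN n / n) ^ 4 * (σ * σ ^ 3) ≤ (NN n / n) ^ 4 * (σ * (144 * cc S ^ 3 * (η ^ 2 + 3 * σ / n))) := by
    calc (NN n / n) ^ 4 * (σ * σ ^ 3) = (NN n / n * σ) ^ 4 := by ring
      _ ≤ _ := h6
      _ = _ := by
        field_simp
        ring
  have h8 : σ * σ ^ 3 ≤ σ * (144 * cc S ^ 3 * (η ^ 2 + 3 * σ / n)) := le_of_mul_le_mul_left h7 (by positivity)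
  rcases hσ0.eq_or_lt with h9 | h9
  · rw [← h9]
    have : 0 ≤ 144 * cc S ^ 3 * (η ^ 2 + 3 * 0 / (n : ℝ)) := by positivity
    simpa using this
  · exact le_of_mul_le_mul_left h8 h9

end V5helper23.ER
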